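import Pool.Agent.N889.WU.Stm

/-!
# WU/KER (helper570): the constants of the derivation are `p`-th powers
-/

set_option autoImplicit false

open Polynomial IntermediateField

namespace Pool.Agent.N570.WU

open Pool.Agent.N889.WU

universe u

/-- the subfield of the `p`-th powers -/
noncomputable def Pw (L : Type u) [Field L] (p : ℕ) [ExpChar L p] : Subfield L :=
  (frobenius L p).fieldRange

lemma mem_Pw {L : Type u} [Field L] {p : ℕ} [ExpChar L p] {x : L} :
    x ∈ Pw L p ↔ ∃ y, y ^ p = x := Iff.rfl

/-- a polynomial of degree less than `p` with zero derivative is constant -/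
lemma const_of_der {R : Type u} [Field R] {p : ℕ} [Fact p.Prime] [CharP R p] {r : R[X]}
    (hr : r.natDegree < p) (h : derivative r = 0) : r = C (r.coeff 0) := by
  ext n
  rw [coeff_C]
  rcases Nat.eq_zero_or_pos n with rfl | hn
  · simp
  · rw [if_neg (by omega)]
    by_cases hnp : n < p
    · have h1 := congrArg (fun q : R[X] => q.coeff (n - 1)) h
      simp only [coeff_derivative, coeff_zero] at h1
      rw [Nat.sub_add_cancel hn] at h1
      rcases mul_eq_zero.1 h1 with h2 | h2
      · exact h2
      · exfalso
        have h3 : ((n : ℕ) : R) = 0 := by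
          have : ((n - 1 : ℕ) : R) + 1 = ((n - 1 + 1 : ℕ) : R) := by push_cast; ring
          rw [this, Nat.sub_add_cancel hn] at h2
          exact h2
        rw [CharP.cast_eq_zero_iff R p] at h3
        exact absurd (Nat.le_of_dvd hn h3) (by omega)
    · exact coeff_eq_zero_of_natDegree_lt (by omega)

/-- **KER** -/
theorem t_KER : S_KER.{u} := by
  intro p hp k L _ _ _ _ _ t D hs ht c hc
  obtain ⟨htr, hfd, hsep⟩ := hs
  have hcL : CharP L p := charP_of_injective_algebraMap (algebraMap k L).injective p
  have heL : ExpChar L p := ExpChar.prime hp.out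
  let P : Subfield L := Pw L p
  have hcP : CharP P p := (algebraMap P L).charP (algebraMap P L).injective p
  let E : IntermediateField P L := P⟮t⟯
  have hkP : ∀ a : k, algebraMap k L a ∈ P := by
    intro a
    obtain ⟨b, hb⟩ := IsAlgClosed.exists_pow_nat_eq a hp.out.pos
    exact mem_Pw.2 ⟨algebraMap k L b, by rw [← map_pow, hb]⟩
  have hPE : ∀ a ∈ P, a ∈ E := fun a ha => E.algebraMap_mem ⟨a, ha⟩
  have hKE : ∀ x ∈ k⟮t⟯, x ∈ E := by
    let E' : IntermediateField k L := E.toSubfield.toIntermediateField
      (fun a => hPE _ (hkP a))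
    have h1 : k⟮t⟯ ≤ E' := by
      rw [IntermediateField.adjoin_simple_le_iff]
      exact mem_adjoin_simple_self P t
    exact fun x hx => h1 hx
  -- `L = P(t)`
  have htop : ∀ x : L, x ∈ E := by
    let f : k⟮t⟯ →+* E := (algebraMap k⟮t⟯ L).codRestrict E (fun x => hKE x x.2)
    let _ : Algebra k⟮t⟯ E := f.toAlgebra
    have : IsScalarTower k⟮t⟯ E L := IsScalarTower.of_algebraMap_eq fun x => rfl
    have h1 : Algebra.IsSeparable E L := Algebra.isSeparable_tower_top_of_isSeparable k⟮t⟯ E L
    have hcE : CharP E p := (algebraMap E L).charP (algebraMap E L).injective p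
    have heE : ExpChar E p := ExpChar.prime hp.out
    have h2 : IsPurelyInseparable E L := by
      rw [isPurelyInseparable_iff_pow_mem E p]
      intro x
      refine ⟨1, ⟨⟨x ^ p, hPE _ (mem_Pw.2 ⟨x, rfl⟩)⟩, ?_⟩⟩
      rw [pow_one]
      rfl
    intro x
    obtain ⟨y, hy⟩ := IsPurelyInseparable.surjective_algebraMap_of_isSeparable E L x
    rw [← hy]
    exact y.2
  -- the derivation over `P`
  have hDP : ∀ a ∈ P, D a = 0 := by
    intro a ha
    obtain ⟨b, rfl⟩ := mem_Pw.1 ha
    rw [Derivation.leibniz_pow, ← Nat.cast_smul_eq_nsmul L, CharP.cast_eq_zero, zero_smul]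
  let D' : Derivation P L L := Derivation.mk'
    { toFun := D
      map_add' := map_add D
      map_smul' := fun a x => by
        change D ((a : L) * x) = (a : L) * D x
        rw [Derivation.leibniz, hDP a a.2, smul_zero, add_zero]
        rfl }
    (fun x y => D.leibniz x y)
  have hD' : ∀ x, D' x = D x := fun x => rfl
  have hDa : ∀ r : P[X], D (aeval t r) = aeval t (derivative r) := by
    intro r
    rw [← hD', Derivation.map_aeval, hD', ht, smul_eq_mul, mul_one]
  -- linear independence
  have hli : ∀ (d : ℕ) (r : P[X]), r.natDegree = d → d < p → aeval t r = 0 → r = 0 := by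
    intro d
    induction d using Nat.strong_induction_on with
    | _ d ih =>
      intro r hr hdp h0
      have h1 : aeval t (derivative r) = 0 := by rw [← hDa, h0, map_zero]
      have h2 : derivative r = 0 := by
        rcases Nat.eq_zero_or_pos d with h | h
        · rw [eq_C_of_natDegree_eq_zero (hr.trans h), derivative_C]
        · have h3 : (derivative r).natDegree < d := by
            rw [← hr]
            exact natDegree_derivative_lt (by omega)
          exact ih _ h3 _ rfl (h3.trans hdp) h1
      have h3 := const_of_der (by omega) h2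
      rw [h3, aeval_C] at h0
      have h4 : r.coeff 0 = 0 := (algebraMap P L).injective (h0.trans (map_zero _).symm)
      rw [h3, h4, C_0]
  -- representation of `c`
  let g : P[X] := X ^ p - C ⟨t ^ p, mem_Pw.2 ⟨t, rfl⟩⟩
  have hg : g.Monic := monic_X_pow_sub_C _ hp.out.ne_zero
  have hgt : aeval t g = 0 := by
    change aeval t (X ^ p - C _) = 0
    rw [map_sub, map_pow, aeval_X, aeval_C]
    exact sub_self _
  have hti : IsIntegral P t := ⟨g, hg, hgt⟩
  have hct := htop c
  have hc1 : c ∈ Algebra.adjoin P {t} := by
    rw [← IntermediateField.adjoin_simple_toSubalgebra_of_isAlgebraic hti.isAlgebraic]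
    exact hct
  rw [Algebra.adjoin_singleton_eq_range_aeval] at hc1
  obtain ⟨q, hq⟩ := hc1
  have hq' : aeval t q = c := hq
  have hr1 : aeval t (q %ₘ g) = c := by
    rw [← hq']
    conv_rhs => rw [← modByMonic_add_div q g]
    rw [map_add, map_mul, hgt, zero_mul, add_zero]
  have hr2 : (q %ₘ g).natDegree < p := by
    have h1 := natDegree_modByMonic_lt q hg (fun h => by
      have h2 := congrArg natDegree h
      rw [natDegree_X_pow_sub_C, natDegree_one] at h2
      exact hp.out.ne_zero h2)
    rwa [natDegree_X_pow_sub_C] at h1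
  have h3 : derivative (q %ₘ g) = 0 := by
    apply hli _ _ rfl
    · exact (natDegree_derivative_le _).trans_lt (by omega)
    · rw [← hDa, hr1, hc]
  have h4 := const_of_der hr2 h3
  rw [h4, aeval_C] at hr1
  have h5 : c ∈ P := by
    rw [← hr1]
    exact ((q %ₘ g).coeff 0).2
  exact mem_Pw.1 h5

end Pool.Agent.N570.WU
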